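import Pool.Agent.H4.CG.Push

/-!
# Extensions
-/

set_option autoImplicit false

namespace Pool.Agent.H4.CG

open Pool.Agent.Q23.CS (FullAut FullOut loops loops_main full_two)
open Pool.Agent.Q24.CG (KK mem_KK KK_char KK_fin fi_comap)

variable {F : Type} [Group F]

/-- Let `p` be a homomorphism of `F` onto `F'`, let the elements of `A` induce automorphisms of `F'`, let
`E` be the group of these automorphisms, and let `N` be the subgroup of the elements of `A` which act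
trivially on `F'`. -/
theorem extension [Group.FG F] {F' : Type} [Group F'] (p : F →* F') (hp : Function.Surjective p)
    {A N : Subgroup (MulAut F)} {E : Subgroup (MulAut F')} (hN : FullAut N) (hE : FullAut E)
    (h0 : N ≤ A) (h1 : ∀ α ∈ A, ∃ ε ∈ E, ∀ w, p (α w) = ε (p w))
    (h2 : ∀ ε ∈ E, ∃ α ∈ A, ∀ w, p (α w) = ε (p w))
    (h3 : ∀ α ∈ A, (∀ w, p (α w) = p w) → α ∈ N) : FullAut A := by
  classical
  rw [fullAut_iff] at hN hE ⊢
  intro M hM hi
  obtain ⟨K₁, a1, a2, a3⟩ := hN (M ⊓ N) inf_le_right (by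
    rw [Subgroup.inf_relIndex_right]
    exact fun h => hi (Subgroup.relIndex_eq_zero_of_le_right h0 h))
  have hG := Gam_fin K₁
  let M' : Subgroup (MulAut F) := M ⊓ Gam K₁
  have hM' : M'.relIndex A ≠ 0 := by
    have h1 : (Gam K₁).relIndex A ≠ 0 :=
      (inferInstance : ((Gam K₁).subgroupOf A).FiniteIndex).index_ne_zero
    exact Subgroup.relIndex_inf_ne_zero hi h1
  let q : A →* MulAut F' :=
    { toFun := fun β => (h1 β.1 β.2).choose
      map_one' := by
        apply MulEquiv.ext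
        intro w
        obtain ⟨v, rfl⟩ := hp w
        exact ((h1 (1 : A).1 (1 : A).2).choose_spec.2 v).symm
      map_mul' := fun β γ => by
        apply MulEquiv.ext
        intro w
        obtain ⟨v, rfl⟩ := hp w
        rw [MulAut.mul_apply, ← (h1 γ.1 γ.2).choose_spec.2, ← (h1 β.1 β.2).choose_spec.2,
          ← (h1 (β * γ : A).1 (β * γ : A).2).choose_spec.2]
        rfl }
  have hq : ∀ (β : A) w, p ((β : MulAut F) w) = q β (p w) :=
    fun β w => (h1 β.1 β.2).choose_spec.2 w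
  have hqE : ∀ β, q β ∈ E := fun β => (h1 β.1 β.2).choose_spec.1
  have hrange : (⊤ : Subgroup A).map q = E := by
    apply le_antisymm
    · rintro _ ⟨β, -, rfl⟩
      exact hqE β
    · intro ε hε
      obtain ⟨β, hβ, h⟩ := h2 ε hε
      refine ⟨⟨β, hβ⟩, trivial, ?_⟩
      apply MulEquiv.ext
      intro w
      obtain ⟨v, rfl⟩ := hp w
      rw [← hq, ← h]
  have hi' : ((M'.subgroupOf A).map q).relIndex E ≠ 0 := by
    rw [← hrange]
    apply relIndex_map
    rw [Subgroup.relIndex_top_right]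
    exact hM'
  obtain ⟨K₂, k1, k2, k3⟩ := hE ((M'.subgroupOf A).map q) (by
    rw [← hrange]; exact Subgroup.map_mono le_top) hi'
  have hK₂n : K₂.Normal := inferInstance
  have hPf : Finite (F' ⧸ K₂) := Subgroup.finite_quotient_of_finiteIndex
  have b2 : (KK F (F' ⧸ K₂)).FiniteIndex := KK_fin
  refine ⟨K₁ ⊓ KK F (F' ⧸ K₂), char_inf a1 KK_char, inferInstance, fun α hα hw => ?_⟩
  have hqα : q ⟨α, hα⟩ ∈ (M'.subgroupOf A).map q := by
    refine k3 _ (hqE _) fun w => ?_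
    obtain ⟨v, rfl⟩ := hp w
    rw [← hq, ← map_inv, ← map_mul]
    have c1 := mem_KK.1 (hw v).2 ((QuotientGroup.mk' K₂).comp p)
    exact (QuotientGroup.eq_one_iff _).1 c1
  obtain ⟨m, hm, hmα⟩ := hqα
  have hm' : (m : MulAut F) ∈ M' := Subgroup.mem_subgroupOf.1 hm
  have hmM : (m : MulAut F) ∈ M := hm'.1
  have hmG : (m : MulAut F) ∈ Gam K₁ := hm'.2
  have c1 : (m : MulAut F)⁻¹ * α ∈ A := mul_mem (inv_mem m.2) hα
  have c2 : (m : MulAut F)⁻¹ * α ∈ N := h3 _ c1 fun w => by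
    have d2 : q (m⁻¹ * ⟨α, hα⟩) = 1 := by rw [map_mul, map_inv, hmα, inv_mul_cancel]
    have d3 := hq (m⁻¹ * ⟨α, hα⟩) w
    rw [d2] at d3
    exact d3
  have hαG : α ∈ Gam K₁ := mem_Gam.2 fun w => (hw w).1
  have c3 : (m : MulAut F)⁻¹ * α ∈ M ⊓ N :=
    a3 _ c2 (mem_Gam.1 (mul_mem (inv_mem hmG) hαG))
  have c4 : (m : MulAut F)⁻¹ * α ∈ M := c3.1
  have c5 := mul_mem hmM c4
  rwa [mul_inv_cancel_left] at c5

theorem out_of_sup {B : Subgroup (MulAut F)} (h : FullOut (B ⊔ CS.Inn F)) : FullOut B := by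
  rw [fullOut_iff] at h ⊢
  intro M hM hi hin
  have hker : (toOut F).ker = CS.Inn F := QuotientGroup.ker_mk' _
  have h1 : ∀ C : Subgroup (MulAut F), (C.map (toOut F)).comap (toOut F) = C ⊔ CS.Inn F := by
    intro C
    rw [Subgroup.comap_map_eq, hker]
  have h2 : (B ⊔ CS.Inn F).map (toOut F) = B.map (toOut F) := by
    rw [← h1, Subgroup.map_comap_eq_self]
    rintro _ ⟨b, -, rfl⟩
    exact ⟨b, rfl⟩
  obtain ⟨K, k1, k2, k3⟩ := h (M ⊔ CS.Inn F) (sup_le_sup_right hM _) (by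
    rw [← h1 M, Subgroup.relIndex_comap, h2]
    exact relIndex_map _ hi)
    (fun g _ => (le_sup_right : CS.Inn F ≤ M ⊔ CS.Inn F) ⟨g, rfl⟩)
  refine ⟨K, k1, k2, fun β hβ hg => ?_⟩
  have h3 := k3 β ((le_sup_left : B ≤ B ⊔ CS.Inn F) hβ) hg
  obtain ⟨m, hm, c, ⟨g, rfl⟩, hmc⟩ := Subgroup.mem_sup_of_normal_right.1 h3
  have h4 : MulAut.conj g ∈ B := by
    have h5 : MulAut.conj g = m⁻¹ * β := by rw [← hmc, inv_mul_cancel_left]
    rw [h5]
    exact mul_mem (inv_mem (hM hm)) hβ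
  rw [← hmc]
  exact mul_mem hm (hin g h4)

end Pool.Agent.H4.CG
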