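import Pool.Agent.H4.CG.Tools

/-!
# Congruence topologies on groups of automorphisms: closure properties
-/

set_option autoImplicit false

namespace Pool.Agent.H4.CG

open Pool.Agent.Q23.CS (FullAut FullOut loops)
open Pool.Agent.Q24.CG (KK mem_KK KK_char KK_fin fi_comap)
open Pool.Agent.Q171.AS (FP inc rt prodA prodA_inc rt_inc rt_inc_ne fp_ext split_all)

variable {F : Type} [Group F]

theorem relIndex_trans {G : Type} [Group G] {A B C : Subgroup G} (hAB : A ≤ B) (hBC : B ≤ C)
    (h1 : A.relIndex B ≠ 0) (h2 : B.relIndex C ≠ 0) : A.relIndex C ≠ 0 := by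
  rw [← Subgroup.relIndex_mul_relIndex A B C hAB hBC]
  exact mul_ne_zero h1 h2

/-! ### virtual retracts -/

theorem retract {A A₁ C : Subgroup (MulAut F)} (hA : FullAut A) (h1 : A₁ ≤ A)
    (h2 : A₁.relIndex A ≠ 0) (h3 : C ≤ A₁) (r : A₁ →* MulAut F) (hr : ∀ a, r a ∈ C)
    (hr' : ∀ a : A₁, (a : MulAut F) ∈ C → r a = a) : FullAut C := by
  rw [fullAut_iff] at hA ⊢
  intro M hM hi
  let r' : A₁ →* C := r.codRestrict C hr
  have hM1 : ((M.subgroupOf C).comap r').index ≠ 0 := by
    have : (M.subgroupOf C).FiniteIndex := ⟨hi⟩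
    exact (fi_comap r' (M.subgroupOf C)).index_ne_zero
  let M₁ : Subgroup (MulAut F) := ((M.subgroupOf C).comap r').map A₁.subtype
  have hM₁ : M₁ ≤ A₁ := Subgroup.map_subtype_le _
  have hi₁ : M₁.relIndex A₁ ≠ 0 := by
    unfold Subgroup.relIndex
    have : M₁.subgroupOf A₁ = (M.subgroupOf C).comap r' := by
      rw [Subgroup.subgroupOf, Subgroup.comap_map_eq_self_of_injective A₁.subtype_injective]
    rw [this]
    exact hM1
  obtain ⟨K, k1, k2, k3⟩ := hA M₁ (hM₁.trans h1) (relIndex_trans hM₁ h1 hi₁ h2)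
  refine ⟨K, k1, k2, fun α hα hw => ?_⟩
  obtain ⟨β, hβ, hβ'⟩ := k3 α (h1 (h3 hα)) hw
  have h4 : (r' β : MulAut F) ∈ M := Subgroup.mem_subgroupOf.1 hβ
  have h5 : (β : MulAut F) = α := hβ'
  have h6 : (r' β : MulAut F) = α := by
    change r β = α
    rw [hr' β (by rw [h5]; exact hα), h5]
  rwa [h6] at h4

/-! ### overgroups -/

theorem above {A B : Subgroup (MulAut F)} (hA : FullAut A) (h1 : A ≤ B)
    {K : Subgroup F} (hK : K.Characteristic) (hKf : K.FiniteIndex)
    (h3 : ∀ α ∈ B, (∀ w : F, α w * w⁻¹ ∈ K) → α ∈ A) : FullAut B := by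
  rw [fullAut_iff] at hA ⊢
  intro M hM hi
  obtain ⟨K', k1, k2, k3⟩ := hA (M ⊓ A) inf_le_right (by
    rw [Subgroup.inf_relIndex_right]
    exact fun h => hi (Subgroup.relIndex_eq_zero_of_le_right h1 h))
  refine ⟨K ⊓ K', char_inf hK k1, inferInstance, fun α hα hw => ?_⟩
  exact (k3 α (h3 α hα fun w => (hw w).1) fun w => (hw w).2).1

/-! ### isomorphisms -/

/-- the group of automorphisms of `F'` which corresponds to `A` under `e` -/
def trans {F' : Type} [Group F'] (e : F ≃* F') (A : Subgroup (MulAut F)) : Subgroup (MulAut F') :=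
  A.map (MulAut.congr e).toMonoidHom

theorem mem_trans {F' : Type} [Group F'] (e : F ≃* F') (A : Subgroup (MulAut F)) (β : MulAut F') :
    β ∈ trans e A ↔ ∃ α ∈ A, ∀ x, β (e x) = e (α x) := by
  constructor
  · rintro ⟨α, hα, rfl⟩
    refine ⟨α, hα, fun x => ?_⟩
    change e (α (e.symm (e x))) = _
    rw [e.symm_apply_apply]
  · rintro ⟨α, hα, h⟩
    refine ⟨α, hα, ?_⟩
    ext y
    change e (α (e.symm y)) = _
    rw [← h, e.apply_symm_apply]

theorem iso {F' : Type} [Group F'] (e : F ≃* F') {A : Subgroup (MulAut F)} (hA : FullAut A) :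
    FullAut (trans e A) := by
  rw [fullAut_iff] at hA ⊢
  intro M hM hi
  let c : MulAut F →* MulAut F' := (MulAut.congr e).toMonoidHom
  have hc : Function.Injective c := (MulAut.congr e).injective
  obtain ⟨K, k1, k2, k3⟩ := hA (M.comap c ⊓ A) inf_le_right (by
    rw [Subgroup.inf_relIndex_right, Subgroup.relIndex_comap]
    exact hi)
  refine ⟨K.comap e.symm.toMonoidHom, ⟨fun φ => ?_⟩, fi_comap _ _, fun β hβ hw => ?_⟩
  · ext x
    rw [Subgroup.mem_comap, Subgroup.mem_comap, Subgroup.mem_comap]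
    have h4 := k1.fixed ((e.trans φ).trans e.symm)
    constructor
    · intro hx
      rw [← h4, Subgroup.mem_comap]
      simpa using hx
    · intro hx
      rw [← h4, Subgroup.mem_comap] at hx
      simpa using hx
  · obtain ⟨α, hα, rfl⟩ := hβ
    refine (k3 α hα fun w => ?_).1
    have h1 := hw (e w)
    have h2 : (MulAut.congr e).toMonoidHom α (e w) = e (α w) := by
      change e (α (e.symm (e w))) = _
      rw [e.symm_apply_apply]
    rw [h2, Subgroup.mem_comap] at h1
    simpa using h1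

/-! ### finite index subgroups of `F` -/

/-- the restrictions to `U` of the elements of `A` that map `U` onto itself -/
def restr (A : Subgroup (MulAut F)) (U : Subgroup F) : Subgroup (MulAut U) where
  carrier := {β | ∃ α ∈ A, ∀ u : U, (β u : F) = α u}
  one_mem' := ⟨1, one_mem _, fun _ => rfl⟩
  mul_mem' := by
    rintro β β' ⟨α, hα, h⟩ ⟨α', hα', h'⟩
    exact ⟨α * α', mul_mem hα hα', fun u => by rw [MulAut.mul_apply, MulAut.mul_apply, h, h']⟩
  inv_mem' := by
    rintro β ⟨α, hα, h⟩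
    refine ⟨α⁻¹, inv_mem hα, fun u => ?_⟩
    have := h (β⁻¹ u)
    rw [MulAut.apply_inv_self] at this
    rw [this, MulAut.inv_apply_self]

theorem cover {A : Subgroup (MulAut F)} [Group.FG F] (hc : Cent F) (hA : FullAut A)
    (U : Subgroup F) [hU : U.FiniteIndex] : FullAut (restr A U) := by
  classical
  have hUfg : Group.FG U := Subgroup.fg_of_index_ne_zero U
  rw [fullAut_iff] at hA ⊢
  intro M hM hi
  -- the elements of `A` which restrict to an element of `M`
  let S : Subgroup (MulAut F) :=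
    { carrier := {α | α ∈ A ∧ ∃ β : MulAut U, ∀ u : U, (β u : F) = α u}
      one_mem' := ⟨one_mem _, 1, fun _ => rfl⟩
      mul_mem' := by
        rintro α α' ⟨hα, β, h⟩ ⟨hα', β', h'⟩
        exact ⟨mul_mem hα hα', β * β', fun u => by
          rw [MulAut.mul_apply, MulAut.mul_apply, h, h']⟩
      inv_mem' := by
        rintro α ⟨hα, β, h⟩
        refine ⟨inv_mem hα, β⁻¹, fun u => ?_⟩
        have := h (β⁻¹ u)
        rw [MulAut.apply_inv_self] at this
        rw [this, MulAut.inv_apply_self] }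
  have hSA : S ≤ A := fun α hα => hα.1
  let f : S →* restr A U :=
    { toFun := fun α => ⟨α.2.2.choose, α, α.2.1, α.2.2.choose_spec⟩
      map_one' := by
        apply Subtype.ext
        apply MulEquiv.ext
        intro u
        apply Subtype.ext
        exact (1 : S).2.2.choose_spec u
      map_mul' := fun α α' => by
        apply Subtype.ext
        apply MulEquiv.ext
        intro u
        apply Subtype.ext
        change (((α * α' : S).2.2.choose u : U) : F) = ((α.2.2.choose (α'.2.2.choose u) : U) : F)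
        rw [(α * α' : S).2.2.choose_spec u, α.2.2.choose_spec, α'.2.2.choose_spec u]
        rfl }
  have hf : ∀ (α : S) (u : U), (((f α : restr A U) : MulAut U) u : F) = (α : MulAut F) u :=
    fun α u => α.2.2.choose_spec u
  have hfM : ((M.subgroupOf (restr A U)).comap f).index ≠ 0 := by
    have : (M.subgroupOf (restr A U)).FiniteIndex := ⟨hi⟩
    exact (fi_comap f _).index_ne_zero
  let T : Subgroup (MulAut F) := ((M.subgroupOf (restr A U)).comap f).map S.subtype
  have hTS : T ≤ S := Subgroup.map_subtype_le _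
  have hTi : T.relIndex S ≠ 0 := by
    unfold Subgroup.relIndex
    have : T.subgroupOf S = (M.subgroupOf (restr A U)).comap f := by
      rw [Subgroup.subgroupOf, Subgroup.comap_map_eq_self_of_injective S.subtype_injective]
    rw [this]
    exact hfM
  have hQ0 : Finite (F ⧸ U.normalCore) := Subgroup.finite_quotient_of_finiteIndex
  -- `S` has finite index in `A`
  have hSi : S.relIndex A ≠ 0 := by
    have hchar : (KK F (F ⧸ U.normalCore)).Characteristic := KK_char
    have hfin : (KK F (F ⧸ U.normalCore)).FiniteIndex := KK_fin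
    have hle : KK F (F ⧸ U.normalCore) ≤ U := by
      intro x hx
      have := mem_KK.1 hx (QuotientGroup.mk' _)
      exact Subgroup.normalCore_le U ((QuotientGroup.eq_one_iff x).1 this)
    have h1 : Gam (KK F (F ⧸ U.normalCore)) ⊓ A ≤ S := by
      rintro α ⟨h1, h2⟩
      replace h1 := mem_Gam.1 h1
      have hmap : ∀ (γ : MulAut F), (∀ w : F, γ w * w⁻¹ ∈ KK F (F ⧸ U.normalCore)) →
          ∀ u ∈ U, γ u ∈ U := by
        intro γ hγ u hu
        have := mul_mem (hle (hγ u)) hu
        simpa using this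
      have h1' : ∀ w : F, α⁻¹ w * w⁻¹ ∈ KK F (F ⧸ U.normalCore) := by
        intro w
        have h3 := h1 (α⁻¹ w)
        rw [MulAut.apply_inv_self] at h3
        have h4 := inv_mem h3
        rw [mul_inv_rev, inv_inv] at h4
        exact h4
      refine ⟨h2, ?_⟩
      let β : MulAut U :=
        { toFun := fun u => ⟨α u, hmap α h1 u u.2⟩
          invFun := fun u => ⟨α⁻¹ u, hmap α⁻¹ h1' u u.2⟩
          left_inv := fun u => Subtype.ext (MulAut.inv_apply_self _ _ _)
          right_inv := fun u => Subtype.ext (MulAut.apply_inv_self _ _ _)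
          map_mul' := fun u v => Subtype.ext (map_mul α (u : F) v) }
      exact ⟨β, fun u => rfl⟩
    intro h0
    have h3 := Subgroup.relIndex_eq_zero_of_le_left h1 h0
    rw [Subgroup.inf_relIndex_right] at h3
    have h4 := Gam_fin (KK F (F ⧸ U.normalCore))
    exact (inferInstance : ((Gam (KK F (F ⧸ U.normalCore))).subgroupOf A).FiniteIndex).index_ne_zero h3
  obtain ⟨K, k1, k2, k3⟩ := hA T (hTS.trans hSA) (relIndex_trans hTS hSA hTi hSi)
  obtain ⟨L, l1, l2, l3⟩ := hc U.normalCore K inferInstance k2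
  let N : Subgroup F := L ⊓ U.normalCore
  have hNn : N.Normal := by
    have : L.Normal := inferInstance
    infer_instance
  have hNf : N.FiniteIndex := inferInstance
  have hQ : Finite (F ⧸ N) := Subgroup.finite_quotient_of_finiteIndex
  refine ⟨KK U (F ⧸ N), KK_char, KK_fin, fun β hβ hw => ?_⟩
  obtain ⟨α, hα, hαβ⟩ := hβ
  have hN : ∀ u : U, α u * (u : F)⁻¹ ∈ N := by
    intro u
    have h1 := mem_KK.1 (hw u) ((QuotientGroup.mk' N).comp U.subtype)
    have h2 := (QuotientGroup.eq_one_iff _).1 h1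
    have h3 : (U.subtype (β u * u⁻¹) : F) = α u * (u : F)⁻¹ := by
      rw [← hαβ]
      rfl
    rwa [h3] at h2
  have hcK : ∀ x : F, x⁻¹ * α x ∈ K := by
    intro x
    refine l3 _ fun u hu => ?_
    have hu' : u ∈ U := Subgroup.normalCore_le U hu
    have hxu : x * u * x⁻¹ ∈ U.normalCore := (inferInstance : U.normalCore.Normal).conj_mem u hu x
    have hxu' : x * u * x⁻¹ ∈ U := Subgroup.normalCore_le U hxu
    have h1 := hN ⟨x * u * x⁻¹, hxu'⟩
    have h2 := hN ⟨u, hu'⟩
    simp only [map_mul, map_inv] at h1 h2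
    rw [← QuotientGroup.eq_one_iff] at h1 h2
    have h5 : ((x⁻¹ * α x * u * (x⁻¹ * α x)⁻¹ * u⁻¹ : F) : F ⧸ N) = 1 := by
      simp only [QuotientGroup.mk_mul, QuotientGroup.mk_inv] at h1 h2 ⊢
      rw [mul_inv_eq_one] at h1 h2 ⊢
      rw [h2] at h1
      rw [mul_inv_rev, inv_inv]
      calc ((x : F ⧸ N))⁻¹ * (α x : F ⧸ N) * (u : F ⧸ N) * ((α x : F ⧸ N)⁻¹ * (x : F ⧸ N))
          = (x : F ⧸ N)⁻¹ * ((α x : F ⧸ N) * (u : F ⧸ N) * (α x : F ⧸ N)⁻¹) * (x : F ⧸ N) := by group
        _ = (x : F ⧸ N)⁻¹ * ((x : F ⧸ N) * (u : F ⧸ N) * (x : F ⧸ N)⁻¹) * (x : F ⧸ N) := by rw [h1]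
        _ = (u : F ⧸ N) := by group
    exact ((QuotientGroup.eq_one_iff _).1 h5).1
  have hKn : K.Normal := inferInstance
  have hαK : ∀ w : F, α w * w⁻¹ ∈ K := by
    intro w
    have := hKn.conj_mem _ (hcK w) w
    have e : w * (w⁻¹ * α w) * w⁻¹ = α w * w⁻¹ := by group
    rwa [e] at this
  obtain ⟨γ, hγ, hγ'⟩ := k3 α hα hαK
  have h6 : ((f γ : restr A U) : MulAut U) ∈ M := Subgroup.mem_subgroupOf.1 hγ
  have h7 : ((f γ : restr A U) : MulAut U) = β := by
    apply MulEquiv.ext
    intro u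
    apply Subtype.ext
    rw [hf, hαβ]
    have h8 : (γ : MulAut F) = α := hγ'
    rw [h8]
  rwa [h7] at h6

/-! ### inner automorphisms -/

theorem out_of_aut {A : Subgroup (MulAut F)} (hin : ∀ g : F, MulAut.conj g ∈ A) (hA : FullAut A) :
    FullOut A := by
  rw [fullAut_iff] at hA
  rw [fullOut_iff]
  intro M hM hi hMin
  obtain ⟨K, k1, k2, k3⟩ := hA M hM hi
  refine ⟨K, k1, k2, ?_⟩
  rintro α hα ⟨g, hg⟩
  have h1 : (MulAut.conj g)⁻¹ * α ∈ M := by
    refine k3 _ (mul_mem (inv_mem (hin g)) hα) fun w => ?_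
    have hKn : K.Normal := inferInstance
    have h2 := hKn.conj_mem _ (hg w) g⁻¹
    have e : g⁻¹ * (α w * (g * w * g⁻¹)⁻¹) * g⁻¹⁻¹ = ((MulAut.conj g)⁻¹ * α) w * w⁻¹ := by
      rw [MulAut.mul_apply, ← map_inv, MulAut.conj_apply]
      group
    rwa [e] at h2
  have h2 := mul_mem (hMin g (hin g)) h1
  rwa [mul_inv_cancel_left] at h2

theorem aut_of_out {A : Subgroup (MulAut F)} (hc : Cent F) (hin : ∀ g : F, MulAut.conj g ∈ A)
    (hA : FullOut A) : FullAut A := by
  rw [fullOut_iff] at hA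
  rw [fullAut_iff]
  intro M hM hi
  have hW : (M.comap (MulAut.conj : F →* MulAut F)).FiniteIndex := by
    let c : F →* A := (MulAut.conj : F →* MulAut F).codRestrict A hin
    have h1 : M.comap (MulAut.conj : F →* MulAut F) = (M.subgroupOf A).comap c := by
      ext x
      rfl
    rw [h1]
    have : (M.subgroupOf A).FiniteIndex := ⟨hi⟩
    exact fi_comap _ _
  obtain ⟨K₀, a1, a2, a3⟩ := hc ⊤ _ inferInstance hW
  have hG := Gam_fin K₀
  let M' : Subgroup (MulAut F) := M ⊓ Gam K₀
  have hM' : M'.relIndex A ≠ 0 := by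
    have h1 : (Gam K₀).relIndex A ≠ 0 :=
      (inferInstance : ((Gam K₀).subgroupOf A).FiniteIndex).index_ne_zero
    exact Subgroup.relIndex_inf_ne_zero hi h1
  let M'' : Subgroup (MulAut F) := M' ⊔ CS.Inn F
  have hInn : CS.Inn F ≤ A := by
    rintro _ ⟨g, rfl⟩
    exact hin g
  have hM''A : M'' ≤ A := sup_le (inf_le_left.trans hM) hInn
  obtain ⟨K₁, b1, b2, b3⟩ := hA M'' hM''A (fun h => hM'
    (Subgroup.relIndex_eq_zero_of_le_left le_sup_left h))
    (fun g _ => (le_sup_right : CS.Inn F ≤ M'') ⟨g, rfl⟩)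
  refine ⟨K₀ ⊓ K₁, char_inf a1 b1, inferInstance, fun α hα hw => ?_⟩
  have h1 : α ∈ M'' := b3 α hα ⟨1, fun w => by simpa using (hw w).2⟩
  obtain ⟨m, hm, c, ⟨g, rfl⟩, hmc⟩ := Subgroup.mem_sup_of_normal_right.1 h1
  have hαG : α ∈ Gam K₀ := mem_Gam.2 fun w => (hw w).1
  have hgG : MulAut.conj g ∈ Gam K₀ := by
    have hm2 : m ∈ Gam K₀ := hm.2
    have h2 := mul_mem (inv_mem hm2) hαG
    rw [← hmc, inv_mul_cancel_left] at h2
    exact h2
  rw [mem_Gam] at hgG
  have hg : g ∈ M.comap (MulAut.conj : F →* MulAut F) := a3 g fun u _ => by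
    have h3 := hgG u
    rwa [MulAut.conj_apply] at h3
  rw [← hmc]
  have hm1 : m ∈ M := hm.1
  exact mul_mem hm1 hg

end Pool.Agent.H4.CG
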