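import Pool.Agent.H4.CG.Ops
import Pool.Agent.H4.CS.Main

/-!
# Free products, and virtually abelian groups
-/

set_option autoImplicit false

namespace Pool.Agent.H4.CG

open Pool.Agent.Q23.CS (FullAut FullOut loops)
open Pool.Agent.Q24.CG (KK mem_KK KK_char KK_fin fi_comap)
open Pool.Agent.Q171.AS (FP inc rt prodA prodA_inc rt_inc rt_inc_ne fp_ext split_all)

/-! ### free products -/

section prod

variable {k : ℕ} (n : Fin k → ℕ)

/-- the automorphisms of the free product which restrict to an element of `A i` on the factor with the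
index `i` -/
def prodGrp (A : ∀ i, Subgroup (MulAut (FreeGroup (Fin (n i))))) : Subgroup (MulAut (FP n)) where
  carrier := {β | ∀ i, ∃ a ∈ A i, ∀ w, β (inc n i w) = inc n i (a w)}
  one_mem' i := ⟨1, one_mem _, fun _ => rfl⟩
  mul_mem' := by
    intro β β' h h' i
    obtain ⟨a, ha, ha'⟩ := h i
    obtain ⟨b, hb, hb'⟩ := h' i
    exact ⟨a * b, mul_mem ha hb, fun w => by rw [MulAut.mul_apply, hb', ha']; rfl⟩
  inv_mem' := by
    intro β h i
    obtain ⟨a, ha, ha'⟩ := h i
    refine ⟨a⁻¹, inv_mem ha, fun w => ?_⟩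
    have := ha' (a⁻¹ w)
    rw [MulAut.apply_inv_self] at this
    rw [← this, MulAut.inv_apply_self]

theorem mulAut_ext {β γ : MulAut (FP n)} (h : ∀ i w, β (inc n i w) = γ (inc n i w)) : β = γ := by
  apply MulEquiv.toMonoidHom_injective
  exact fp_ext n h

/-- the homomorphism from the product of the automorphism groups -/
def PA : (∀ i, MulAut (FreeGroup (Fin (n i)))) →* MulAut (FP n) where
  toFun := prodA n
  map_one' := by
    apply mulAut_ext
    intro i w
    rw [prodA_inc]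
    rfl
  map_mul' α β := by
    apply mulAut_ext
    intro i w
    rw [MulAut.mul_apply, prodA_inc, prodA_inc, prodA_inc]
    rfl

variable {n}

theorem prod_key (hk : 2 ≤ k) (hn : ∀ i, 1 ≤ n i)
    {A : ∀ i, Subgroup (MulAut (FreeGroup (Fin (n i))))} (hA : ∀ i, FullAut (A i))
    (M : Subgroup (MulAut (FP n))) (hi : M.relIndex (prodGrp n A) ≠ 0) :
    ∃ L : Subgroup (FP n), L.Characteristic ∧ L.FiniteIndex ∧ ∀ β ∈ prodGrp n A,
      (∃ g, ∀ x, β x * (g * x * g⁻¹)⁻¹ ∈ L) → β ∈ M := by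
  classical
  have h1 : ∀ i, ∃ K : Subgroup (FreeGroup (Fin (n i))), K.Characteristic ∧ K.FiniteIndex ∧
      ∀ α ∈ A i, (∀ w, α w * w⁻¹ ∈ K) →
        α ∈ M.comap ((PA n).comp (MonoidHom.mulSingle _ i)) ⊓ A i := by
    intro i
    refine fullAut_iff.1 (hA i) _ inf_le_right ?_
    rw [Subgroup.inf_relIndex_right, Subgroup.relIndex_comap]
    intro h0
    refine hi (Subgroup.relIndex_eq_zero_of_le_right ?_ h0)
    rintro _ ⟨a, ha, rfl⟩ j
    change ∃ b ∈ A j, ∀ w, prodA n (Pi.mulSingle i a) (inc n j w) = inc n j (b w)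
    by_cases hij : j = i
    · subst hij
      refine ⟨a, ha, fun w => ?_⟩
      rw [prodA_inc, Pi.mulSingle_eq_same]
    · refine ⟨1, one_mem _, fun w => ?_⟩
      rw [prodA_inc, Pi.mulSingle_eq_of_ne hij]
  choose K k1 k2 k3 using h1
  obtain ⟨L, l1, l2, l3⟩ := split_all n hk hn K k1 k2
  refine ⟨L, l1, l2, ?_⟩
  intro β hβ hg
  choose α hα hα' using hβ
  have hβα : β = prodA n α := by
    apply mulAut_ext
    intro i w
    rw [prodA_inc, hα']
  subst hβα
  have h4 := l3 α hg
  have h5 : α ∈ M.comap (PA n) :=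
    Subgroup.pi_mem_of_mulSingle_mem α fun i => (k3 i (α i) (hα i) (h4 i)).1
  exact h5

theorem prod_aut (hk : 2 ≤ k) (hn : ∀ i, 1 ≤ n i)
    {A : ∀ i, Subgroup (MulAut (FreeGroup (Fin (n i))))} (hA : ∀ i, FullAut (A i)) :
    FullAut (prodGrp n A) := by
  rw [fullAut_iff]
  intro M hM hi
  obtain ⟨L, l1, l2, l3⟩ := prod_key hk hn hA M hi
  exact ⟨L, l1, l2, fun β hβ hw => l3 β hβ ⟨1, fun x => by simpa using hw x⟩⟩

theorem prod_out (hk : 2 ≤ k) (hn : ∀ i, 1 ≤ n i)
    {A : ∀ i, Subgroup (MulAut (FreeGroup (Fin (n i))))} (hA : ∀ i, FullAut (A i)) :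
    FullOut (prodGrp n A) := by
  rw [fullOut_iff]
  intro M hM hi _
  exact prod_key hk hn hA M hi

end prod

/-! ### virtually abelian groups -/

open Pool.Agent.H4.CS (Out Inn rho mem_ker_rho virtual full Kers Kers_normal Kers_nonempty Kers_dir)

/-- the group `B` has a finitely generated abelian subgroup of finite index -/
def VAb {G : Type} [Group G] (B : Subgroup G) : Prop :=
  ∃ B₀ : Subgroup G, B₀ ≤ B ∧ B₀.relIndex B ≠ 0 ∧ (∀ a ∈ B₀, ∀ b ∈ B₀, a * b = b * a) ∧ B₀.FG

theorem vab_map {G H : Type} [Group G] [Group H] (f : G →* H) {B : Subgroup G} (h : VAb B) :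
    VAb (B.map f) := by
  classical
  obtain ⟨B₀, h1, h2, h3, S, hS⟩ := h
  refine ⟨B₀.map f, Subgroup.map_mono h1, ?_, ?_, S.image f, by
    rw [Finset.coe_image, ← MonoidHom.map_closure, hS]⟩
  · intro h0
    rw [← Subgroup.relIndex_comap] at h0
    exact h2 (Subgroup.relIndex_eq_zero_of_le_left (Subgroup.le_comap_map f B₀) h0)
  · rintro _ ⟨a, ha, rfl⟩ _ ⟨b, hb, rfl⟩
    rw [← map_mul, ← map_mul, h3 a ha b hb]

/-- for groups of outer automorphisms -/
theorem vab_out {n : ℕ} {B : Subgroup (Out (FreeGroup (Fin n)))} (h : VAb B)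
    (M : Subgroup (Out (FreeGroup (Fin n)))) (hM : M ≤ B) (hi : M.relIndex B ≠ 0) :
    ∃ K : Subgroup (FreeGroup (Fin n)), K.Characteristic ∧ K.FiniteIndex ∧
      ∀ α : MulAut (FreeGroup (Fin n)), (QuotientGroup.mk α : Out (FreeGroup (Fin n))) ∈ B →
        (∃ g, ∀ w, α w * (g * w * g⁻¹)⁻¹ ∈ K) →
        (QuotientGroup.mk α : Out (FreeGroup (Fin n))) ∈ M := by
  obtain ⟨B₀, h1, h2, h3, h4⟩ := h
  obtain ⟨a1, _⟩ := virtual (full n) (Kers_normal _) (Kers_nonempty _) (Kers_dir _) h1 h2 h3 h4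
  obtain ⟨_, ⟨K, hK, hKi, _, rfl⟩, a3⟩ := a1 M hM hi
  exact ⟨K, hK, hKi, fun α hα hg => a3 ⟨hα, (mem_ker_rho K α).2 hg⟩⟩

/-- the natural map to the group of outer automorphisms -/
def toOut (F : Type) [Group F] : MulAut F →* Out F := QuotientGroup.mk' (Inn F)

theorem mem_map_toOut {F : Type} [Group F] {M : Subgroup (MulAut F)} {α : MulAut F}
    (h : toOut F α ∈ M.map (toOut F)) : ∃ m ∈ M, ∃ g : F, α = m * MulAut.conj g := by
  obtain ⟨m, hm, h1⟩ := h
  have h2 : m⁻¹ * α ∈ Inn F := by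
    have h3 : (QuotientGroup.mk m : Out F) = QuotientGroup.mk α := h1
    exact QuotientGroup.eq.1 h3
  obtain ⟨g, hg⟩ := h2
  exact ⟨m, hm, g, by rw [hg, mul_inv_cancel_left]⟩

theorem relIndex_map {G H : Type} [Group G] [Group H] (f : G →* H) {M A : Subgroup G}
    (h : M.relIndex A ≠ 0) : (M.map f).relIndex (A.map f) ≠ 0 := by
  intro h0
  rw [← Subgroup.relIndex_comap] at h0
  exact h (Subgroup.relIndex_eq_zero_of_le_left (Subgroup.le_comap_map f M) h0)

/-- a group of automorphisms with virtually abelian image in the outer automorphism group -/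
theorem base_out {n : ℕ} {A : Subgroup (MulAut (FreeGroup (Fin n)))} (h : VAb (A.map (toOut _))) :
    FullOut A := by
  rw [fullOut_iff]
  intro M hM hi hin
  obtain ⟨K, k1, k2, k3⟩ := vab_out h (M.map (toOut _)) (Subgroup.map_mono hM) (relIndex_map _ hi)
  refine ⟨K, k1, k2, fun α hα hg => ?_⟩
  obtain ⟨m, hm, g, hmg⟩ := mem_map_toOut (k3 α ⟨α, hα, rfl⟩ hg)
  have h1 : MulAut.conj g ∈ A := by
    have h2 : MulAut.conj g = m⁻¹ * α := by rw [hmg, inv_mul_cancel_left]
    rw [h2]
    exact mul_mem (inv_mem (hM hm)) hα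
  rw [hmg]
  exact mul_mem hm (hin g h1)

/-- the extension group of a virtually abelian group of outer automorphisms -/
theorem base_ext {n : ℕ} (hn : 2 ≤ n) {A : Subgroup (MulAut (FreeGroup (Fin n)))}
    (hin : ∀ g, MulAut.conj g ∈ A) (h : VAb (A.map (toOut _))) : FullAut A := by
  have h01 : (⟨0, by omega⟩ : Fin n) ≠ ⟨1, by omega⟩ := by
    intro h
    have := congrArg Fin.val h
    simp at this
  exact aut_of_out (cent_two h01) hin (base_out h)

open Pool.Agent.Q23.CS (ex ex_io ex_of io io_of io_inj rt_io rt_of hom_ext' mal_io)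

/-- a virtually abelian group of automorphisms -/
theorem base_aut {n : ℕ} (hn : 1 ≤ n) {A : Subgroup (MulAut (FreeGroup (Fin n)))} (h : VAb A) :
    FullAut A := by
  classical
  rw [fullAut_iff]
  intro M hM hi
  let e : Fin n → Fin (n + 1) := Fin.castSucc
  have he : Function.Injective e := Fin.castSucc_injective n
  let t : Fin (n + 1) := Fin.last n
  have ht : ∀ i, e i ≠ t := fun i => (Fin.castSucc_lt_last i).ne
  let f : MulAut (FreeGroup (Fin n)) →* Out (FreeGroup (Fin (n + 1))) := (toOut _).comp (ex he)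
  have hf : Function.Injective f := by
    rw [injective_iff_map_eq_one]
    intro β hβ
    have h1 : ex he β ∈ Inn (FreeGroup (Fin (n + 1))) := (QuotientGroup.eq_one_iff _).1 hβ
    obtain ⟨g, hg⟩ := h1
    have hg' : ∀ w, g * w * g⁻¹ = ex he β w := fun w => by
      rw [← hg, MulAut.conj_apply]
    let i0 : Fin n := ⟨0, hn⟩
    obtain ⟨v, hv⟩ := mal_io (e := e) i0 (g := g) (w := β (FreeGroup.of i0)) (by
      rw [hg', ← io_of e i0, ex_io])
    obtain ⟨v', hv'⟩ := mal_io (e := fun _ : Unit => t) () (g := g) (w := FreeGroup.of ()) (by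
      rw [hg', ex_of he β ht, io_of])
    have h2 : v = 1 := by
      have h3 := rt_io he v
      rw [← hv, hv'] at h3
      rw [← h3]
      have h4 : (Pool.Agent.Q23.CS.rt e).comp (io (fun _ : Unit => t)) = 1 := by
        ext u
        rw [MonoidHom.comp_apply, io_of, rt_of ht]
        rfl
      exact DFunLike.congr_fun h4 v'
    have h5 : g = 1 := by rw [hv, h2, map_one]
    apply MulEquiv.ext
    intro w
    apply io_inj he
    rw [← ex_io he, ← hg', h5]
    simp
  obtain ⟨K, k1, k2, k3⟩ := vab_out (vab_map f h) (M.map f) (Subgroup.map_mono hM)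
    (relIndex_map _ hi)
  have hKn : K.Normal := inferInstance
  have hQ : Finite (FreeGroup (Fin (n + 1)) ⧸ K) := Subgroup.finite_quotient_of_finiteIndex
  refine ⟨KK (FreeGroup (Fin n)) (FreeGroup (Fin (n + 1)) ⧸ K), KK_char, KK_fin,
    fun α hα hw => ?_⟩
  have h1 : f α ∈ M.map f := by
    refine k3 (ex he α) ⟨α, hα, rfl⟩ ⟨1, fun w => ?_⟩
    have h2 : (QuotientGroup.mk' K).comp (ex he α).toMonoidHom = QuotientGroup.mk' K := by
      refine hom_ext' (e := e) (fun w => ?_) (fun x hx => ?_)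
      · have h3 := mem_KK.1 (hw w) ((QuotientGroup.mk' K).comp (io e))
        rw [map_mul, map_inv, mul_inv_eq_one] at h3
        rw [MonoidHom.comp_apply]
        change QuotientGroup.mk' K (ex he α (io e w)) = _
        rw [ex_io]
        exact h3
      · rw [MonoidHom.comp_apply]
        change QuotientGroup.mk' K (ex he α (FreeGroup.of x)) = _
        rw [ex_of he α hx]
    have h3 := DFunLike.congr_fun h2 w
    rw [one_mul, inv_one, mul_one, ← QuotientGroup.eq_one_iff, QuotientGroup.mk_mul,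
      QuotientGroup.mk_inv, mul_inv_eq_one]
    exact h3
  obtain ⟨m, hm, h2⟩ := h1
  rwa [← hf h2]

end Pool.Agent.H4.CG
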