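import Pool.Agent.H4.CG.Prod

/-!
# Inner automorphisms, and automorphisms fixing a letter
-/

set_option autoImplicit false

namespace Pool.Agent.H4.CG

open Pool.Agent.Q23.CS (FullAut FullOut loops)
open Pool.Agent.Q24.CG (KK mem_KK KK_char KK_fin fi_comap)

variable {F : Type} [Group F]

/-- `FullOut` only depends on the image in the group of outer automorphisms -/
theorem out_sup {B : Subgroup (MulAut F)} (hB : FullOut B) : FullOut (B ⊔ CS.Inn F) := by
  rw [fullOut_iff] at hB ⊢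
  intro M hM hi hin
  have hin' : ∀ g : F, MulAut.conj g ∈ M := fun g =>
    hin g ((le_sup_right : CS.Inn F ≤ B ⊔ CS.Inn F) ⟨g, rfl⟩)
  obtain ⟨K, k1, k2, k3⟩ := hB (M ⊓ B) inf_le_right (by
    rw [Subgroup.inf_relIndex_right]
    exact fun h => hi (Subgroup.relIndex_eq_zero_of_le_right le_sup_left h))
    (fun g hg => ⟨hin' g, hg⟩)
  refine ⟨K, k1, k2, ?_⟩
  rintro α hα ⟨g, hg⟩
  obtain ⟨b, hb, c, ⟨h, rfl⟩, hbc⟩ := Subgroup.mem_sup_of_normal_right.1 hα
  have h1 : b ∈ M ⊓ B := by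
    refine k3 b hb ⟨g * h⁻¹, fun w => ?_⟩
    have h2 := hg (h⁻¹ * w * h)
    have h3 : α (h⁻¹ * w * h) = b w := by
      rw [← hbc, MulAut.mul_apply, MulAut.conj_apply]
      congr 1
      group
    rw [h3] at h2
    have h4 : g * h⁻¹ * w * (g * h⁻¹)⁻¹ = g * (h⁻¹ * w * h) * g⁻¹ := by group
    rw [h4]
    exact h2
  rw [← hbc]
  exact mul_mem h1.1 (hin' h)

theorem aut_of_out_comm {A : Subgroup (MulAut F)} (hcomm : ∀ a b : F, a * b = b * a)
    (hA : FullOut A) : FullAut A := by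
  rw [fullOut_iff] at hA
  rw [fullAut_iff]
  intro M hM hi
  obtain ⟨K, k1, k2, k3⟩ := hA M hM hi (fun g _ => by
    have : MulAut.conj g = 1 := by
      ext w
      rw [MulAut.conj_apply, hcomm g w, mul_inv_cancel_right]
      rfl
    rw [this]
    exact one_mem _)
  exact ⟨K, k1, k2, fun α hα hw => k3 α hα ⟨1, fun w => by simpa using hw w⟩⟩

/-- the case of free groups -/
theorem aut_sup {X : Type} [Finite X] {B : Subgroup (MulAut (FreeGroup X))} (hB : FullOut B) :
    FullAut (B ⊔ CS.Inn (FreeGroup X)) := by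
  by_cases h : ∃ a b : FreeGroup X, a * b ≠ b * a
  · exact aut_of_out (cent_free X h)
      (fun g => (le_sup_right : CS.Inn (FreeGroup X) ≤ B ⊔ CS.Inn (FreeGroup X)) ⟨g, rfl⟩)
      (out_sup hB)
  · push Not at h
    exact aut_of_out_comm h (out_sup hB)

/-! ### automorphisms fixing a letter -/

section push

variable {X : Type} (x0 : X)

open Classical in
/-- the retraction which kills the letter `x0` -/
noncomputable def kill : FreeGroup X →* FreeGroup {x : X // x ≠ x0} :=
  FreeGroup.lift fun x => if h : x ≠ x0 then FreeGroup.of ⟨x, h⟩ else 1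

theorem kill_self : kill x0 (FreeGroup.of x0) = 1 := by
  simp [kill]

theorem kill_surj : Function.Surjective (kill x0) := by
  intro w
  refine FreeGroup.induction_on w ⟨1, map_one _⟩ (fun i => ⟨FreeGroup.of i.1, ?_⟩) (fun i h => ?_) ?_
  · simp [kill, i.2]
  · obtain ⟨v, hv⟩ := h
    exact ⟨v⁻¹, by rw [map_inv, hv]⟩
  · rintro a b ⟨v, hv⟩ ⟨v', hv'⟩
    exact ⟨v * v', by rw [map_mul, hv, hv']⟩

/-- Let the elements of `B` fix the letter `x0`, so that they act on the free group on the other letters,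
let `E` be the group of the automorphisms given by this action, and let its kernel consist of inner
automorphisms. -/
theorem push [Finite X] {B : Subgroup (MulAut (FreeGroup X))}
    {E : Subgroup (MulAut (FreeGroup {x : X // x ≠ x0}))} (hE : FullAut E)
    (h1 : ∀ β ∈ B, β (FreeGroup.of x0) = FreeGroup.of x0)
    (h2 : ∀ β ∈ B, ∃ ε ∈ E, ∀ w, kill x0 (β w) = ε (kill x0 w))
    (h3 : ∀ ε ∈ E, ∃ β ∈ B, ∀ w, kill x0 (β w) = ε (kill x0 w))
    (h4 : ∀ β ∈ B, (∀ w, kill x0 (β w) = kill x0 w) → ∃ g, β = MulAut.conj g) : FullOut B := by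
  classical
  rw [fullAut_iff] at hE
  rw [fullOut_iff]
  intro M hM hi hin
  let q : B →* MulAut (FreeGroup {x : X // x ≠ x0}) :=
    { toFun := fun β => (h2 β.1 β.2).choose
      map_one' := by
        ext w
        obtain ⟨v, rfl⟩ := kill_surj x0 w
        exact ((h2 (1 : B).1 (1 : B).2).choose_spec.2 v).symm
      map_mul' := fun β γ => by
        apply MulEquiv.ext
        intro w
        obtain ⟨v, rfl⟩ := kill_surj x0 w
        rw [MulAut.mul_apply, ← (h2 γ.1 γ.2).choose_spec.2, ← (h2 β.1 β.2).choose_spec.2,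
          ← (h2 (β * γ : B).1 (β * γ : B).2).choose_spec.2]
        rfl }
  have hq : ∀ (β : B) w, kill x0 ((β : MulAut (FreeGroup X)) w) = q β (kill x0 w) :=
    fun β w => (h2 β.1 β.2).choose_spec.2 w
  have hqE : ∀ β, q β ∈ E := fun β => (h2 β.1 β.2).choose_spec.1
  have hrange : (⊤ : Subgroup B).map q = E := by
    apply le_antisymm
    · rintro _ ⟨β, -, rfl⟩
      exact hqE β
    · intro ε hε
      obtain ⟨β, hβ, h⟩ := h3 ε hε
      refine ⟨⟨β, hβ⟩, trivial, ?_⟩
      apply MulEquiv.ext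
      intro w
      obtain ⟨v, rfl⟩ := kill_surj x0 w
      rw [← hq, ← h]
  have hi' : ((M.subgroupOf B).map q).relIndex E ≠ 0 := by
    rw [← hrange]
    apply relIndex_map
    rw [Subgroup.relIndex_top_right]
    exact hi
  obtain ⟨K', k1, k2, k3⟩ := hE ((M.subgroupOf B).map q) (by
    rw [← hrange]; exact Subgroup.map_mono le_top) hi'
  have hK'n : K'.Normal := inferInstance
  let P := FreeGroup {x : X // x ≠ x0} ⧸ K'
  have hPf : Finite P := Subgroup.finite_quotient_of_finiteIndex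
  let π : FreeGroup X →* P := (QuotientGroup.mk' K').comp (kill x0)
  have hπ0 : π (FreeGroup.of x0) = 1 := by
    change QuotientGroup.mk' K' (kill x0 (FreeGroup.of x0)) = 1
    rw [kill_self, map_one]
  have hTf : Finite (Equiv.Perm (P × ZMod (1 + 1))) := by
    have : NeZero (1 + 1) := ⟨by omega⟩
    infer_instance
  refine ⟨KK (FreeGroup X) (Equiv.Perm (P × ZMod (1 + 1))) ⊓ KK (FreeGroup X) P,
    char_inf KK_char KK_char, ?_, ?_⟩
  · have a1 : (KK (FreeGroup X) (Equiv.Perm (P × ZMod (1 + 1)))).FiniteIndex := KK_fin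
    have a2 : (KK (FreeGroup X) P).FiniteIndex := KK_fin
    infer_instance
  rintro α hα ⟨g, hg⟩
  have hπg : π g = 1 := by
    have a1 : α (FreeGroup.of x0) * (g * FreeGroup.of x0 * g⁻¹)⁻¹ ∈
        KK (FreeGroup X) (Equiv.Perm (P × ZMod (1 + 1))) := (hg (FreeGroup.of x0)).1
    rw [h1 α hα] at a1
    have a2 := inv_mem a1
    have a3 := mem_KK.1 a2 (fact (1 + 1) π x0)
    have a4 := fact_comm π x0 (N := 1) Nat.one_pos (by rw [hπ0, one_pow]) g (by
      rw [pow_one]
      rw [mul_inv_rev, inv_inv] at a3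
      exact a3)
    rw [hπ0] at a4
    obtain ⟨j, hj⟩ := a4
    simp only [one_zpow] at hj
    exact hj.symm
  have hqα : q ⟨α, hα⟩ ∈ (M.subgroupOf B).map q := by
    refine k3 _ (hqE _) fun w => ?_
    obtain ⟨v, rfl⟩ := kill_surj x0 w
    rw [← hq, ← map_inv, ← map_mul]
    have a1 := mem_KK.1 (hg v).2 π
    rw [map_mul, map_inv, map_mul, map_mul, map_inv, hπg, one_mul, inv_one, mul_one,
      ← map_inv, ← map_mul] at a1
    exact (QuotientGroup.eq_one_iff _).1 a1
  obtain ⟨m, hm, hmα⟩ := hqα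
  have a1 : (m : MulAut (FreeGroup X))⁻¹ * α ∈ B := mul_mem (inv_mem m.2) hα
  obtain ⟨g', hg'⟩ := h4 _ a1 (fun w => by
    have a2 : q (m⁻¹ * ⟨α, hα⟩) = 1 := by rw [map_mul, map_inv, hmα, inv_mul_cancel]
    have a3 := hq (m⁻¹ * ⟨α, hα⟩) w
    rw [a2] at a3
    exact a3)
  have a2 : MulAut.conj g' ∈ M := hin g' (by rw [← hg']; exact a1)
  rw [← hg'] at a2
  have a3 : (m : MulAut (FreeGroup X)) ∈ M := Subgroup.mem_subgroupOf.1 hm
  have a4 := mul_mem a3 a2
  rwa [mul_inv_cancel_left] at a4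

end push

end Pool.Agent.H4.CG
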