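import Pool.Agent.H4.CG.Ext

/-!
# Invariant subgroups
-/

set_option autoImplicit false

namespace Pool.Agent.H4.CG

open Pool.Agent.Q23.CS (FullAut FullOut loops loops_main full_two)
open Pool.Agent.Q24.CG (KK mem_KK KK_char KK_fin fi_comap)

variable {F : Type} [Group F]

/-- Let `U` be a subgroup of `F` on which the profinite topology of `F` induces the profinite topology, let
the elements of `A` map `U` onto itself, let `E` be the group of their restrictions, and let `N` be the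
subgroup of the elements of `A` which fix the elements of `U`. -/
theorem invariant [Group.FG F] {U : Subgroup F}
    (hU : ∀ V : Subgroup U, V.FiniteIndex → ∃ W : Subgroup F, W.FiniteIndex ∧ ∀ u : U, (u : F) ∈ W → u ∈ V)
    {A N : Subgroup (MulAut F)} {E : Subgroup (MulAut U)} (hN : FullAut N) (hE : FullAut E)
    (h0 : N ≤ A) (h1 : ∀ α ∈ A, ∃ ε ∈ E, ∀ u : U, (ε u : F) = α u)
    (h2 : ∀ ε ∈ E, ∃ α ∈ A, ∀ u : U, (ε u : F) = α u)
    (h3 : ∀ α ∈ A, (∀ u : U, α u = u) → α ∈ N) : FullAut A := by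
  classical
  rw [fullAut_iff] at hN hE ⊢
  intro M hM hi
  obtain ⟨K₁, a1, a2, a3⟩ := hN (M ⊓ N) inf_le_right (by
    rw [Subgroup.inf_relIndex_right]
    exact fun h => hi (Subgroup.relIndex_eq_zero_of_le_right h0 h))
  have hG := Gam_fin K₁
  let M' : Subgroup (MulAut F) := M ⊓ Gam K₁
  have hM' : M'.relIndex A ≠ 0 := by
    have h1 : (Gam K₁).relIndex A ≠ 0 :=
      (inferInstance : ((Gam K₁).subgroupOf A).FiniteIndex).index_ne_zero
    exact Subgroup.relIndex_inf_ne_zero hi h1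
  let q : A →* MulAut U :=
    { toFun := fun β => (h1 β.1 β.2).choose
      map_one' := by
        apply MulEquiv.ext
        intro w
        apply Subtype.ext
        exact (h1 (1 : A).1 (1 : A).2).choose_spec.2 w
      map_mul' := fun β γ => by
        apply MulEquiv.ext
        intro w
        apply Subtype.ext
        rw [MulAut.mul_apply, (h1 β.1 β.2).choose_spec.2, (h1 γ.1 γ.2).choose_spec.2,
          (h1 (β * γ : A).1 (β * γ : A).2).choose_spec.2]
        rfl }
  have hq : ∀ (β : A) (u : U), (q β u : F) = (β : MulAut F) u :=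
    fun β u => (h1 β.1 β.2).choose_spec.2 u
  have hqE : ∀ β, q β ∈ E := fun β => (h1 β.1 β.2).choose_spec.1
  have hrange : (⊤ : Subgroup A).map q = E := by
    apply le_antisymm
    · rintro _ ⟨β, -, rfl⟩
      exact hqE β
    · intro ε hε
      obtain ⟨β, hβ, h⟩ := h2 ε hε
      refine ⟨⟨β, hβ⟩, trivial, ?_⟩
      apply MulEquiv.ext
      intro w
      apply Subtype.ext
      rw [hq, h]
  have hi' : ((M'.subgroupOf A).map q).relIndex E ≠ 0 := by
    rw [← hrange]
    apply relIndex_map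
    rw [Subgroup.relIndex_top_right]
    exact hM'
  obtain ⟨K₂, k1, k2, k3⟩ := hE ((M'.subgroupOf A).map q) (by
    rw [← hrange]; exact Subgroup.map_mono le_top) hi'
  obtain ⟨W, w1, w2⟩ := hU K₂ k2
  have hWn : W.normalCore.FiniteIndex := inferInstance
  have hPf : Finite (F ⧸ W.normalCore) := Subgroup.finite_quotient_of_finiteIndex
  have b2 : (KK F (F ⧸ W.normalCore)).FiniteIndex := KK_fin
  have hle : KK F (F ⧸ W.normalCore) ≤ W := by
    intro x hx
    have := mem_KK.1 hx (QuotientGroup.mk' _)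
    exact Subgroup.normalCore_le W ((QuotientGroup.eq_one_iff x).1 this)
  refine ⟨K₁ ⊓ KK F (F ⧸ W.normalCore), char_inf a1 KK_char, inferInstance, fun α hα hw => ?_⟩
  have hqα : q ⟨α, hα⟩ ∈ (M'.subgroupOf A).map q := by
    refine k3 _ (hqE _) fun u => ?_
    apply w2
    have c1 := hle (hw u).2
    rw [Subgroup.coe_mul, Subgroup.coe_inv, hq]
    exact c1
  obtain ⟨m, hm, hmα⟩ := hqα
  have hm' : (m : MulAut F) ∈ M' := Subgroup.mem_subgroupOf.1 hm
  have hmM : (m : MulAut F) ∈ M := hm'.1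
  have hmG : (m : MulAut F) ∈ Gam K₁ := hm'.2
  have c1 : (m : MulAut F)⁻¹ * α ∈ A := mul_mem (inv_mem m.2) hα
  have c2 : (m : MulAut F)⁻¹ * α ∈ N := h3 _ c1 fun u => by
    have d2 : q (m⁻¹ * ⟨α, hα⟩) = 1 := by rw [map_mul, map_inv, hmα, inv_mul_cancel]
    have d3 := hq (m⁻¹ * ⟨α, hα⟩) u
    rw [d2] at d3
    exact d3.symm
  have hαG : α ∈ Gam K₁ := mem_Gam.2 fun w => (hw w).1
  have c3 : (m : MulAut F)⁻¹ * α ∈ M ⊓ N :=
    a3 _ c2 (mem_Gam.1 (mul_mem (inv_mem hmG) hαG))
  have c4 : (m : MulAut F)⁻¹ * α ∈ M := c3.1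
  have c5 := mul_mem hmM c4
  rwa [mul_inv_cancel_left] at c5

end Pool.Agent.H4.CG
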