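import Mathlib
import Pool.Agent.H4.L.R_pool_sql_team_seeded_3997aac3.Q23.CS.Uncond
import Pool.Agent.H4.CS.Out

/-!
# Congruence topologies on groups of automorphisms: tools
-/

set_option autoImplicit false

namespace Pool.Agent.H4.CG

open Pool.Agent.Q23.CS (FullAut FullOut loops)
open Pool.Agent.Q24.CG (KK mem_KK KK_char KK_fin fi_comap)

variable {F : Type} [Group F]

/-- the automorphisms which act trivially on `F / K` -/
def Gam (K : Subgroup F) [K.Characteristic] : Subgroup (MulAut F) := (CS.autMap K).ker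

theorem mem_Gam {K : Subgroup F} [K.Characteristic] {α : MulAut F} :
    α ∈ Gam K ↔ ∀ w : F, α w * w⁻¹ ∈ K := by
  unfold Gam
  rw [MonoidHom.mem_ker]
  constructor
  · intro h w
    have h1 := DFunLike.congr_fun h (w : F ⧸ K)
    rw [CS.autMap_mk] at h1
    rw [← QuotientGroup.eq_one_iff, QuotientGroup.mk_mul, QuotientGroup.mk_inv, mul_inv_eq_one]
    exact h1
  · intro h
    ext x
    induction x using QuotientGroup.induction_on with
    | H x =>
      rw [CS.autMap_mk]
      have h1 := h x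
      rw [← QuotientGroup.eq_one_iff, QuotientGroup.mk_mul, QuotientGroup.mk_inv,
        mul_inv_eq_one] at h1
      exact h1

theorem Gam_fin (K : Subgroup F) [K.Characteristic] [K.FiniteIndex] : (Gam K).FiniteIndex := by
  unfold Gam
  have : Finite (F ⧸ K) := Subgroup.finite_quotient_of_finiteIndex
  have : Finite (MulAut (F ⧸ K)) := by
    apply Finite.of_injective (fun a : MulAut (F ⧸ K) => (a : F ⧸ K → F ⧸ K))
    intro a b h
    exact MulEquiv.ext fun x => congrFun h x
  exact Subgroup.finiteIndex_ker _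

theorem char_inf {K L : Subgroup F} (hK : K.Characteristic) (hL : L.Characteristic) :
    (K ⊓ L).Characteristic := by
  rw [Subgroup.characteristic_iff_comap_eq] at *
  intro φ
  rw [Subgroup.comap_inf, hK φ, hL φ]

theorem fullAut_iff {A : Subgroup (MulAut F)} : FullAut A ↔ ∀ M : Subgroup (MulAut F), M ≤ A →
    M.relIndex A ≠ 0 → ∃ K : Subgroup F, K.Characteristic ∧ K.FiniteIndex ∧
      ∀ α ∈ A, (∀ w : F, α w * w⁻¹ ∈ K) → α ∈ M := by
  constructor
  · intro h M hM hi
    obtain ⟨K, h1, h2, h3⟩ := h (M.subgroupOf A) ⟨hi⟩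
    exact ⟨K, h1, h2, fun α hα hw => Subgroup.mem_subgroupOf.1 (h3 ⟨α, hα⟩ hw)⟩
  · intro h M hM
    have h0 : (M.map A.subtype).subgroupOf A = M := by
      rw [Subgroup.subgroupOf, Subgroup.comap_map_eq_self_of_injective A.subtype_injective]
    obtain ⟨K, h1, h2, h3⟩ := h (M.map A.subtype) (Subgroup.map_subtype_le M) (by
      unfold Subgroup.relIndex
      rw [h0]
      exact hM.index_ne_zero)
    refine ⟨K, h1, h2, fun α hw => ?_⟩
    have h4 := h3 α α.2 hw
    have h5 : α ∈ (M.map A.subtype).subgroupOf A := Subgroup.mem_subgroupOf.2 h4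
    rwa [h0] at h5

theorem fullOut_iff {A : Subgroup (MulAut F)} : FullOut A ↔ ∀ M : Subgroup (MulAut F), M ≤ A →
    M.relIndex A ≠ 0 → (∀ g : F, MulAut.conj g ∈ A → MulAut.conj g ∈ M) →
      ∃ K : Subgroup F, K.Characteristic ∧ K.FiniteIndex ∧
      ∀ α ∈ A, (∃ g : F, ∀ w : F, α w * (g * w * g⁻¹)⁻¹ ∈ K) → α ∈ M := by
  constructor
  · intro h M hM hi hin
    obtain ⟨K, h1, h2, h3⟩ := h (M.subgroupOf A) ⟨hi⟩
      (fun g hg => Subgroup.mem_subgroupOf.2 (hin g hg))
    exact ⟨K, h1, h2, fun α hα hw => Subgroup.mem_subgroupOf.1 (h3 ⟨α, hα⟩ hw)⟩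
  · intro h M hM hin
    have h0 : (M.map A.subtype).subgroupOf A = M := by
      rw [Subgroup.subgroupOf, Subgroup.comap_map_eq_self_of_injective A.subtype_injective]
    obtain ⟨K, h1, h2, h3⟩ := h (M.map A.subtype) (Subgroup.map_subtype_le M) (by
      unfold Subgroup.relIndex
      rw [h0]
      exact hM.index_ne_zero) (fun g hg => ⟨⟨MulAut.conj g, hg⟩, hin g hg, rfl⟩)
    refine ⟨K, h1, h2, fun α hw => ?_⟩
    have h4 := h3 α α.2 hw
    have h5 : α ∈ (M.map A.subtype).subgroupOf A := Subgroup.mem_subgroupOf.2 h4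
    rwa [h0] at h5

/-- finite index subgroups have separated centralizers -/
def Cent (F : Type) [Group F] : Prop :=
  ∀ U W : Subgroup F, U.FiniteIndex → W.FiniteIndex → ∃ K : Subgroup F, K.Characteristic ∧
    K.FiniteIndex ∧ ∀ g : F, (∀ u ∈ U, g * u * g⁻¹ * u⁻¹ ∈ K) → g ∈ W

section free

variable {X P : Type} [Group P]

open Classical in
/-- the action of a letter -/
noncomputable def lact (m : ℕ) (π : FreeGroup X →* P) (x0 x : X) : Equiv.Perm (P × ZMod m) where
  toFun y := (π (FreeGroup.of x) * y.1, if x = x0 ∧ y.1 = 1 then y.2 + 1 else y.2)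
  invFun y := ((π (FreeGroup.of x))⁻¹ * y.1,
    if x = x0 ∧ (π (FreeGroup.of x))⁻¹ * y.1 = 1 then y.2 - 1 else y.2)
  left_inv y := by
    by_cases h : x = x0 ∧ y.1 = 1
    · simp [h]
      exact Prod.ext h.2.symm rfl
    · by_cases h1 : x = x0
      · by_cases h2 : y.1 = 1
        · exact absurd ⟨h1, h2⟩ h
        · simp [h2]
      · simp [h1]
  right_inv y := by
    by_cases h1 : x = x0
    · by_cases h2 : (π (FreeGroup.of x))⁻¹ * y.1 = 1
      · simp [h1, h2]
        subst h1
        simp [h2]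
      · subst h1
        simp [h2]
    · simp [h1]

/-- the action -/
noncomputable def fact (m : ℕ) (π : FreeGroup X →* P) (x0 : X) :
    FreeGroup X →* Equiv.Perm (P × ZMod m) := FreeGroup.lift (lact m π x0)

theorem fact_fst (m : ℕ) (π : FreeGroup X →* P) (x0 : X) (w : FreeGroup X) :
    ∀ y, (fact m π x0 w y).1 = π w * y.1 := by
  refine FreeGroup.induction_on w ?_ (fun i => ?_) (fun i _ => ?_) (fun x y hx hy => ?_)
  · intro y
    simp
  · intro y
    simp [fact, lact]
  · intro y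
    change (fact m π x0 (FreeGroup.of i)⁻¹ y).1 = π (FreeGroup.of i)⁻¹ * y.1
    rw [map_inv, map_inv, fact, FreeGroup.lift_apply_of]
    rfl
  · intro z
    rw [map_mul, map_mul, Equiv.Perm.mul_apply, hx, hy, mul_assoc]

theorem fact_shift (m : ℕ) (π : FreeGroup X →* P) (x0 : X) (w : FreeGroup X) (c : ZMod m) :
    ∀ y : P × ZMod m, fact m π x0 w (y.1, y.2 + c) =
      ((fact m π x0 w y).1, (fact m π x0 w y).2 + c) := by
  classical
  refine FreeGroup.induction_on w ?_ (fun i => ?_) (fun i _ => ?_) (fun x y hx hy => ?_)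
  · intro y
    simp
  · intro y
    rw [fact, FreeGroup.lift_apply_of]
    by_cases h : i = x0 ∧ y.1 = 1
    · simp only [lact, Equiv.coe_fn_mk, h, and_self, if_true]
      rw [Prod.mk.injEq]
      exact ⟨rfl, by ring⟩
    · simp only [lact, Equiv.coe_fn_mk, h, if_false]
  · intro y
    change fact m π x0 (FreeGroup.of i)⁻¹ _ = ((fact m π x0 (FreeGroup.of i)⁻¹ y).1,
      (fact m π x0 (FreeGroup.of i)⁻¹ y).2 + c)
    rw [map_inv, fact, FreeGroup.lift_apply_of, Equiv.Perm.inv_def]
    have e1 : ∀ z : P × ZMod m, (lact m π x0 i).symm z = ((π (FreeGroup.of i))⁻¹ * z.1,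
        if i = x0 ∧ (π (FreeGroup.of i))⁻¹ * z.1 = 1 then z.2 - 1 else z.2) := fun _ => rfl
    rw [e1, e1]
    by_cases h : i = x0 ∧ (π (FreeGroup.of i))⁻¹ * y.1 = 1
    · rw [if_pos h, if_pos h]
      exact Prod.ext rfl (by ring)
    · rw [if_neg h, if_neg h]
  · intro z
    rw [map_mul, Equiv.Perm.mul_apply, Equiv.Perm.mul_apply, hy, hx]

theorem fact_pow_out (m : ℕ) (π : FreeGroup X →* P) (x0 : X) (q : P)
    (hq : q ∉ Subgroup.zpowers (π (FreeGroup.of x0))) (i : ZMod m) (j : ℕ) :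
    fact m π x0 (FreeGroup.of x0 ^ j) (q, i) = (π (FreeGroup.of x0) ^ j * q, i) := by
  classical
  induction j with
  | zero => simp
  | succ j ih =>
    rw [pow_succ', map_mul, Equiv.Perm.mul_apply, ih, fact, FreeGroup.lift_apply_of]
    have h : ¬ (π (FreeGroup.of x0) ^ j * q = 1) := by
      intro h
      apply hq
      have : q = (π (FreeGroup.of x0) ^ j)⁻¹ := (inv_eq_of_mul_eq_one_right h).symm
      rw [this]
      exact inv_mem (pow_mem (Subgroup.mem_zpowers _) j)
    simp only [lact, Equiv.coe_fn_mk, h, and_false, if_false]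
    rw [pow_succ', mul_assoc]

theorem fact_pow_one (m : ℕ) (π : FreeGroup X →* P) (x0 : X) (j : ℕ) : ∃ c : ℕ, 1 ≤ c ∧ c ≤ j + 1 ∧
    fact m π x0 (FreeGroup.of x0 ^ (j + 1)) (1, 0) = (π (FreeGroup.of x0) ^ (j + 1), (c : ZMod m)) := by
  classical
  induction j with
  | zero =>
    refine ⟨1, le_rfl, le_rfl, ?_⟩
    rw [zero_add, pow_one, pow_one, fact, FreeGroup.lift_apply_of]
    simp [lact]
  | succ j ih =>
    obtain ⟨c, h1, h2, h3⟩ := ih
    rw [pow_succ', map_mul, Equiv.Perm.mul_apply, h3, fact, FreeGroup.lift_apply_of]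
    by_cases h : π (FreeGroup.of x0) ^ (j + 1) = 1
    · refine ⟨c + 1, by omega, by omega, ?_⟩
      simp only [lact, Equiv.coe_fn_mk, h, and_self, if_true]
      rw [pow_succ' _ (j + 1), h]
      push_cast
      rfl
    · refine ⟨c, h1, by omega, ?_⟩
      simp only [lact, Equiv.coe_fn_mk, h, and_false, if_false]
      rw [pow_succ' _ (j + 1)]

/-- if `g` commutes with a power of the letter `x0` in the image of the action, then `π g` is a power of
`π x0` -/
theorem fact_comm (π : FreeGroup X →* P) (x0 : X) {N : ℕ} (hN : 0 < N)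
    (hp : π (FreeGroup.of x0) ^ N = 1) (g : FreeGroup X)
    (h : fact (N + 1) π x0 (g * FreeGroup.of x0 ^ N * g⁻¹ * (FreeGroup.of x0 ^ N)⁻¹) = 1) :
    π g ∈ Subgroup.zpowers (π (FreeGroup.of x0)) := by
  by_contra hcon
  obtain ⟨N, rfl⟩ : ∃ N', N = N' + 1 := ⟨N - 1, by omega⟩
  obtain ⟨c, h1, h2, h3⟩ := fact_pow_one (N + 1 + 1) π x0 N
  rw [map_mul, map_inv, mul_inv_eq_one, map_mul, map_inv, mul_inv_eq_iff_eq_mul, map_mul] at h
  have h4 := congrArg (fun e : Equiv.Perm (P × ZMod (N + 1 + 1)) => e (1, 0)) h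
  simp only [Equiv.Perm.mul_apply] at h4
  rw [h3, hp] at h4
  have h5 := fact_shift (N + 1 + 1) π x0 g (c : ZMod (N + 1 + 1)) (1, 0)
  rw [zero_add] at h5
  rw [h5] at h4
  have h6 : (fact (N + 1 + 1) π x0 g (1, 0)).1 = π g := by
    rw [fact_fst, mul_one]
  have h7 := fact_pow_out (N + 1 + 1) π x0 (π g) hcon (fact (N + 1 + 1) π x0 g (1, 0)).2 (N + 1)
  have h8 : fact (N + 1 + 1) π x0 g (1, 0) = (π g, (fact (N + 1 + 1) π x0 g (1, 0)).2) :=
    Prod.ext h6 rfl
  rw [h8] at h4
  rw [h7, hp, one_mul] at h4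
  have h9 := congrArg Prod.snd h4
  simp only [add_eq_left] at h9
  have h10 : (N + 1 + 1) ∣ c := (ZMod.natCast_eq_zero_iff c (N + 1 + 1)).1 h9
  have := Nat.le_of_dvd (by omega) h10
  omega

theorem cent_two [Finite X] {x y : X} (hxy : x ≠ y) : Cent (FreeGroup X) := by
  classical
  intro U W hU hW
  let W1 := W.normalCore
  have hW1 : W1.FiniteIndex := inferInstance
  let e := Nat.card (FreeGroup X ⧸ W1)
  have hQf : Finite (FreeGroup X ⧸ W1) := Subgroup.finite_quotient_of_finiteIndex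
  have he : 0 < e := Nat.card_pos
  have : NeZero e := ⟨he.ne'⟩
  let ε : FreeGroup X →* Multiplicative (ZMod e) :=
    FreeGroup.lift fun z => if z = x then Multiplicative.ofAdd 1 else 1
  let P := (FreeGroup X ⧸ W1) × Multiplicative (ZMod e)
  let π : FreeGroup X →* P := (QuotientGroup.mk' W1).prod ε
  have hPf : Finite P := inferInstance
  let N := (Nat.card P) * (U.index).factorial
  have hN : 0 < N := Nat.mul_pos Nat.card_pos (Nat.factorial_pos _)
  have hNU : ∀ z : FreeGroup X, z ^ N ∈ U := by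
    intro z
    refine Subgroup.pow_mem_of_index_ne_zero_of_dvd hU.index_ne_zero z fun m h1 h2 => ?_
    exact Dvd.dvd.mul_left (Nat.dvd_factorial h1 h2) _
  have hNP : ∀ z : X, π (FreeGroup.of z) ^ N = 1 := by
    intro z
    rw [pow_mul, pow_card_eq_one', one_pow]
  have hTf : Finite (Equiv.Perm (P × ZMod (N + 1))) := by
    have : NeZero (N + 1) := ⟨by omega⟩
    infer_instance
  refine ⟨KK (FreeGroup X) (Equiv.Perm (P × ZMod (N + 1))), KK_char, KK_fin, fun g hg => ?_⟩
  have key : ∀ z : X, π g ∈ Subgroup.zpowers (π (FreeGroup.of z)) := fun z =>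
    fact_comm π z hN (hNP z) g (mem_KK.1 (hg _ (hNU _)) _)
  obtain ⟨a, ha⟩ := key x
  obtain ⟨b, hb⟩ := key y
  have h1 : ε g = 1 := by
    have h2 := congrArg Prod.snd hb
    have h3 : ε (FreeGroup.of y) = 1 := by simp [ε, hxy.symm]
    have h4 : (π (FreeGroup.of y) ^ b).2 = ε (FreeGroup.of y) ^ b := rfl
    have h5 : (π g).2 = ε g := rfl
    simp only [h4, h5, h3, one_zpow] at h2
    exact h2.symm
  have h2 : ((e : ℕ) : ℤ) ∣ a := by
    have h2 := congrArg Prod.snd ha
    have h3 : ε (FreeGroup.of x) = Multiplicative.ofAdd 1 := by simp [ε]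
    have h4 : (π (FreeGroup.of x) ^ a).2 = ε (FreeGroup.of x) ^ a := rfl
    have h5 : (π g).2 = ε g := rfl
    simp only [h4, h5, h3, h1] at h2
    have h6 := congrArg Multiplicative.toAdd h2
    rw [toAdd_zpow, toAdd_ofAdd, toAdd_one, zsmul_one] at h6
    exact (ZMod.intCast_zmod_eq_zero_iff_dvd a e).1 h6
  obtain ⟨c, rfl⟩ := h2
  have h3 := congrArg Prod.fst ha
  have h4 : (π (FreeGroup.of x) ^ ((e : ℤ) * c)).1 =
      ((FreeGroup.of x : FreeGroup X) : FreeGroup X ⧸ W1) ^ ((e : ℤ) * c) := rfl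
  have h5 : (π g).1 = (g : FreeGroup X ⧸ W1) := rfl
  simp only [h4, h5] at h3
  rw [zpow_mul, zpow_natCast, pow_card_eq_one', one_zpow] at h3
  exact Subgroup.normalCore_le W ((QuotientGroup.eq_one_iff _).1 h3.symm)

end free

theorem cent_free (X : Type) [Finite X] (h : ∃ a b : FreeGroup X, a * b ≠ b * a) :
    Cent (FreeGroup X) := by
  classical
  by_cases hX : ∃ x y : X, x ≠ y
  · obtain ⟨x, y, hxy⟩ := hX
    exact cent_two hxy
  · exfalso
    push Not at hX
    obtain ⟨a, b, hab⟩ := h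
    apply hab
    have hsub : Subsingleton X := ⟨hX⟩
    rcases isEmpty_or_nonempty X with h1 | ⟨⟨x⟩⟩
    · have : Subsingleton (FreeGroup X) := inferInstance
      exact Subsingleton.elim _ _
    · have key : ∀ w : FreeGroup X, w ∈ Subgroup.zpowers (FreeGroup.of x) := by
        intro w
        refine FreeGroup.induction_on w (one_mem _) (fun i => ?_) (fun i h => ?_)
          (fun a b ha hb => mul_mem ha hb)
        · rw [hX i x]
          exact Subgroup.mem_zpowers _
        · exact inv_mem h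
      obtain ⟨i, hi⟩ := key a
      obtain ⟨j, hj⟩ := key b
      simp only at hi hj
      rw [← hi, ← hj, ← zpow_add, ← zpow_add, add_comm]

theorem cent_iso {F' : Type} [Group F'] (e : F ≃* F') (h : Cent F) : Cent F' := by
  intro U W hU hW
  obtain ⟨K, h1, h2, h3⟩ := h (U.comap e.toMonoidHom) (W.comap e.toMonoidHom) (fi_comap _ _)
    (fi_comap _ _)
  refine ⟨K.comap e.symm.toMonoidHom, ⟨fun φ => ?_⟩, fi_comap _ _, fun g hg => ?_⟩
  · ext x
    rw [Subgroup.mem_comap, Subgroup.mem_comap, Subgroup.mem_comap]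
    have h4 := h1.fixed ((e.trans φ).trans e.symm)
    constructor
    · intro hx
      rw [← h4, Subgroup.mem_comap]
      simpa using hx
    · intro hx
      rw [← h4, Subgroup.mem_comap] at hx
      simpa using hx
  · have h4 : e.symm g ∈ W.comap e.toMonoidHom := by
      refine h3 _ fun u hu => ?_
      have h5 := hg (e u) hu
      rw [Subgroup.mem_comap] at h5
      simpa using h5
    rw [Subgroup.mem_comap] at h4
    simpa using h4

theorem cent_sub (h : Cent F) (U₀ : Subgroup F) [U₀.FiniteIndex] [Group.FG U₀] : Cent U₀ := by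
  intro U W hU hW
  have hfi : ∀ V : Subgroup U₀, V.FiniteIndex → (V.map U₀.subtype).FiniteIndex := by
    intro V hV
    refine ⟨?_⟩
    rw [Subgroup.index_map_subtype]
    exact mul_ne_zero hV.index_ne_zero (inferInstance : U₀.FiniteIndex).index_ne_zero
  obtain ⟨K, h1, h2, h3⟩ := h _ _ (hfi U hU) (hfi W hW)
  have hKn : K.Normal := inferInstance
  have hKf : Finite (F ⧸ K) := Subgroup.finite_quotient_of_finiteIndex
  refine ⟨KK U₀ (F ⧸ K), KK_char, KK_fin, fun g hg => ?_⟩
  have h4 : (g : F) ∈ W.map U₀.subtype := by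
    refine h3 _ ?_
    rintro _ ⟨u, hu, rfl⟩
    have h5 := mem_KK.1 (hg u hu) ((QuotientGroup.mk' K).comp U₀.subtype)
    rw [← QuotientGroup.eq_one_iff]
    exact h5
  obtain ⟨w, hw, hw'⟩ := h4
  have : w = g := Subtype.ext hw'
  rwa [← this]

end Pool.Agent.H4.CG
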