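import Pool.Agent.H4.CG.Push

/-!
# Virtually abelian groups of outer automorphisms: the preimage in the automorphism group, and free splittings
-/

set_option autoImplicit false

namespace Pool.Agent.H4.CG

open Pool.Agent.Q23.CS (FullAut FullOut loops)
open Pool.Agent.H4.CS (Out Inn rho autMap mem_ker_rho)

variable {F : Type} [Group F]

/-- `FullAut` in terms of the kernel of the natural map -/
theorem FullAut.ker {A : Subgroup (MulAut F)} (hA : FullAut A) (B : Subgroup (MulAut F)) (hB : B ≤ A)
    (hi : B.relIndex A ≠ 0) : ∃ (K : Subgroup F) (_ : K.Characteristic),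
      K.FiniteIndex ∧ A ⊓ (autMap K).ker ≤ B := by
  obtain ⟨K, k1, k2, k3⟩ := fullAut_iff.1 hA B hB hi
  refine ⟨K, k1, k2, ?_⟩
  rintro α ⟨h1, h2⟩
  exact k3 α h1 (mem_Gam.1 h2)

/-- `FullOut` in terms of the kernel of the natural map -/
theorem FullOut.ker {A : Subgroup (MulAut F)} (hA : FullOut A) (B : Subgroup (Out F))
    (hi : B.relIndex (A.map (toOut F)) ≠ 0) :
    ∃ (K : Subgroup F) (_ : K.Characteristic),
      K.FiniteIndex ∧ A.map (toOut F) ⊓ (rho K).ker ≤ B := by
  have hM : (B.comap (toOut F) ⊓ A).relIndex A ≠ 0 := by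
    rw [Subgroup.inf_relIndex_right, Subgroup.relIndex_comap]
    exact hi
  obtain ⟨K, k1, k2, k3⟩ := fullOut_iff.1 hA (B.comap (toOut F) ⊓ A) inf_le_right hM (by
    intro g hg
    have h1 : toOut F (MulAut.conj g) = 1 := (QuotientGroup.eq_one_iff _).2 ⟨g, rfl⟩
    have h2 : toOut F (MulAut.conj g) ∈ B := by
      rw [h1]
      exact one_mem B
    exact ⟨h2, hg⟩)
  refine ⟨K, k1, k2, ?_⟩
  rintro x ⟨⟨α, hα, rfl⟩, h2⟩
  exact (k3 α hα ((mem_ker_rho K α).1 h2)).1

/-- the preimage of a virtually abelian group of outer automorphisms -/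
theorem pre_full {n : ℕ} {A : Subgroup (Out (FreeGroup (Fin n)))} (h : VAb A) :
    FullAut (A.comap (toOut (FreeGroup (Fin n)))) := by
  have hin : ∀ g, MulAut.conj g ∈ A.comap (toOut (FreeGroup (Fin n))) := by
    intro g
    rw [Subgroup.mem_comap]
    have h1 : toOut (FreeGroup (Fin n)) (MulAut.conj g) = 1 := (QuotientGroup.eq_one_iff _).2 ⟨g, rfl⟩
    rw [h1]
    exact one_mem A
  have hsurj : Function.Surjective (toOut (FreeGroup (Fin n))) := QuotientGroup.mk'_surjective _
  have hmap : (A.comap (toOut (FreeGroup (Fin n)))).map (toOut _) = A :=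
    Subgroup.map_comap_eq_self_of_surjective hsurj A
  rcases Nat.lt_or_ge n 2 with hn | hn
  · have hcomm : ∀ a b : FreeGroup (Fin n), a * b = b * a := by
      have hs : Subsingleton (Fin n) := by
        rcases n with _ | _ | n
        · exact inferInstanceAs (Subsingleton (Fin 0))
        · exact inferInstanceAs (Subsingleton (Fin 1))
        · omega
      have key : ∀ (i : Fin n) (b : FreeGroup (Fin n)), Commute (FreeGroup.of i) b := by
        intro i b
        induction b using FreeGroup.induction_on with
        | C1 => exact Commute.one_right _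
        | of j => rw [Subsingleton.elim j i]
        | inv_of j _ => rw [Subsingleton.elim j i]; exact (Commute.refl _).inv_right
        | mul x y hx hy => exact hx.mul_right hy
      intro a b
      induction a using FreeGroup.induction_on with
      | C1 => exact (Commute.one_left b)
      | of i => exact key i b
      | inv_of i _ => exact (key i b).inv_left
      | mul x y hx hy => exact Commute.mul_left hx hy
    exact aut_of_out_comm hcomm (base_out (by rw [hmap]; exact h))
  · exact base_ext hn hin (by rw [hmap]; exact h)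

end Pool.Agent.H4.CG
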